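import Mathlib
import Pool.Agent.X143.CL.Defs
import Pool.Agent.X143.CL.Transfer

set_option linter.unusedSectionVars false

namespace Pool.Agent.Results.MP_78de02_pr.RankZero

open Pool.Agent.X143.CL
open Finset Matrix MeasureTheory Filter Topology

lemma summable_log_factor (p : ℕ) [hp : Fact p.Prime] :
    Summable fun i : ℕ => Real.log (1 - ((p : ℝ) ^ (i + 1))⁻¹) := by
  have hp1 : (1 : ℝ) < p := by exact_mod_cast hp.out.one_lt
  have h1 : Summable fun i : ℕ => -((p : ℝ) ^ (i + 1))⁻¹ := by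
    have h2 : Summable fun i : ℕ => ((p : ℝ)⁻¹) ^ i :=
      summable_geometric_of_lt_one (by positivity) (inv_lt_one_of_one_lt₀ hp1)
    have h3 := (h2.mul_left (-(p : ℝ)⁻¹))
    refine h3.congr fun i => ?_
    rw [pow_succ, mul_inv, inv_pow]
    ring
  have h2 := Real.summable_log_one_add_of_summable h1
  exact h2.congr fun i => by rw [sub_eq_add_neg]

lemma cp_pos (p : ℕ) [hp : Fact p.Prime] : 0 < cp p := by
  have h := Real.rexp_tsum_eq_tprod (fun i => pip_factor_pos p i) (summable_log_factor p)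
  unfold cp
  rw [← h]
  exact Real.exp_pos _

lemma tendsto_pip (p : ℕ) [hp : Fact p.Prime] : Tendsto (pip p) atTop (𝓝 (cp p)) := by
  have h := Real.multipliable_of_summable_log (fun i => pip_factor_pos p i) (summable_log_factor p)
  exact h.tendsto_prod_tprod_nat

lemma pip_le_one (p m : ℕ) [hp : Fact p.Prime] : pip p m ≤ 1 := by
  unfold pip
  refine Finset.prod_le_one (fun i _ => (pip_factor_pos p i).le) fun i _ => ?_
  have : (0 : ℝ) ≤ ((p : ℝ) ^ (i + 1))⁻¹ := by positivity
  linarith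

section

variable {p : ℕ} [hp : Fact p.Prime]

lemma cok_iff {n : ℕ} (X : Fin n → Fin n → ℤ_[p]) (G : Type) [AddCommGroup G] :
    Nonempty (Cok X ≃+ G) ↔ CokIso G (fun c i => X i c) := by
  unfold Cok CokIso
  rw [Matrix.range_mulVecLin]
  rfl

lemma det_iff {n : ℕ} (X : Fin n → Fin n → ℤ_[p]) :
    ((Matrix.of X).map PadicInt.toZMod).det ≠ 0 ↔ IsUnit (Matrix.of X).det := by
  rw [isUnit_iff_toZMod, RingHom.map_det]
  rfl

lemma ext_iff {n : ℕ} (e : ℕ) (X : Fin n → Fin n → ℤ_[p]) :
    Ext univ (fun c i => rd p e (X i c)) ↔ IsUnit (Matrix.of X).det := by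
  rw [Ext_univ, ← isUnit_rd (p := p) (e := e), RingHom.map_det, ← Matrix.det_transpose]
  rfl

lemma cok_trivial_iff {n : ℕ} (X : Fin n → Fin n → ℤ_[p]) :
    Nonempty (Cok X ≃+ PUnit.{1}) ↔ IsUnit (Matrix.of X).det := by
  have h1 : Nonempty (Cok X ≃+ PUnit.{1}) ↔
      LinearMap.range (Matrix.mulVecLin (Matrix.of X)) = ⊤ := by
    rw [← Submodule.Quotient.subsingleton_iff]
    constructor
    · rintro ⟨f⟩
      exact f.injective.subsingleton
    · intro h
      exact ⟨{ toFun := fun _ => PUnit.unit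
               invFun := fun _ => 0
               left_inv := fun x => Subsingleton.elim _ _
               right_inv := fun x => rfl
               map_add' := fun _ _ => rfl }⟩
  rw [h1, LinearMap.range_eq_top]
  have h2 : Function.Surjective (Matrix.mulVecLin (Matrix.of X)) ↔
      Function.Surjective (Matrix.mulVec (Matrix.of X)) := Iff.rfl
  rw [h2, Matrix.mulVec_surjective_iff_exists_right_inverse]
  constructor
  · rintro ⟨B, hB⟩
    exact Matrix.isUnit_det_of_right_inverse hB
  · intro h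
    exact ⟨(Matrix.of X)⁻¹, Matrix.mul_nonsing_inv _ h⟩

variable [MeasurableSpace ℤ_[p]] [BorelSpace ℤ_[p]]
    (μ : Measure ℤ_[p]) [μ.IsAddHaarMeasure] [IsProbabilityMeasure μ]

lemma prob_det (e : ℕ) {n : ℕ} (σ : Fin n → Finset (Fin n)) :
    (law μ σ).real {X | ((Matrix.of X).map PadicInt.toZMod).det ≠ 0}
      = Pr (R := ZMod (p ^ (e + 1))) (fun c => Vs (σ c)) (Ext univ) := by
  rw [← transfer (e := e) μ σ (Ext univ)]
  congr 1
  ext X
  change ((Matrix.of X).map PadicInt.toZMod).det ≠ 0 ↔ Ext univ (fun c i => rd p e (X i c))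
  rw [det_iff, ext_iff]

lemma prob_cok {e : ℕ} {G : Type} [AddCommGroup G] (hG : ∀ g : G, p ^ e • g = 0) {n : ℕ}
    (σ : Fin n → Finset (Fin n)) :
    (law μ σ).real {X | Nonempty (Cok X ≃+ G)}
      = Pr (R := ZMod (p ^ (e + 1))) (fun c => Vs (σ c)) (CokIso G) := by
  rw [← transfer (e := e) μ σ (CokIso G)]
  congr 1
  ext X
  change Nonempty (Cok X ≃+ G) ↔ CokIso G (fun c i => rd p e (X i c))
  rw [cok_iff, cok_rd hG]

end

lemma muU_bound {p e : ℕ} [hp : Fact p.Prime] {κ : Type*} [Fintype κ] [DecidableEq κ]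
    {G : Type} [AddCommGroup G] [Finite G] (hG : ∀ g : G, p ^ e • g = 0) :
    |muU (ZMod (p ^ (e + 1))) κ G - 1 / (Nat.card (G ≃+ G) : ℝ) * pip p (Fintype.card κ)|
      ≤ (Nat.card (AddSubgroup G) : ℝ) * (1 / 2) ^ (Fintype.card κ) := by
  let _ : Fintype G := Fintype.ofFinite G
  have hmod : Module (ZMod (p ^ (e + 1))) G := AddCommGroup.zmodModule (fun g => by
    rw [pow_succ, mul_comm, mul_smul, hG, smul_zero])
  have h1 := muU_eq (κ := κ) hG
  have hfin : Finite (G ≃+ G) := DFunLike.finite _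
  have hA : (1 : ℝ) ≤ Nat.card (G ≃+ G) := by
    have : 0 < Nat.card (G ≃+ G) := Nat.card_pos
    exact_mod_cast this
  have h1' : muU (ZMod (p ^ (e + 1))) κ G * Nat.card (G ≃+ G) = gp κ G * pip p (Fintype.card κ) := by
    rw [← h1]
    rw [show (fun a b => Classical.propDecidable (a = b) : DecidableEq κ) = ‹DecidableEq κ› from
      Subsingleton.elim _ _]
  have h2 : muU (ZMod (p ^ (e + 1))) κ G
      = 1 / (Nat.card (G ≃+ G) : ℝ) * (gp κ G * pip p (Fintype.card κ)) := by
    rw [← h1']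
    field_simp
  have h3 := gp_ge (κ := κ) (G := G)
  have h4 := gp_le_one (κ := κ) (G := G)
  have h5 := pip_pos p (Fintype.card κ)
  have h6 := pip_le_one p (Fintype.card κ)
  have h7 : 1 / (Nat.card (G ≃+ G) : ℝ) ≤ 1 := by
    rw [div_le_one (by linarith)]
    exact hA
  have h8 : 0 < 1 / (Nat.card (G ≃+ G) : ℝ) := by positivity
  have h9 : muU (ZMod (p ^ (e + 1))) κ G - 1 / (Nat.card (G ≃+ G) : ℝ) * pip p (Fintype.card κ)
      = -(1 / (Nat.card (G ≃+ G) : ℝ) * pip p (Fintype.card κ) * (1 - gp κ G)) := by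
    rw [h2]
    ring
  rw [h9, abs_neg, abs_of_nonneg (mul_nonneg (by positivity) (by linarith))]
  have h10 : 1 / (Nat.card (G ≃+ G) : ℝ) * pip p (Fintype.card κ) ≤ 1 := by nlinarith
  nlinarith

/-- For all supports, the cokernel converges to the Cohen-Lenstra distribution if and only if the
probability that the determinant is nonzero modulo `p` converges to `c_p`. -/
theorem result (p : ℕ) [Fact p.Prime] [MeasurableSpace ℤ_[p]] [BorelSpace ℤ_[p]]
    (μ : Measure ℤ_[p]) [μ.IsAddHaarMeasure] [IsProbabilityMeasure μ]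
    (σ : ∀ n : ℕ, Fin n → Finset (Fin n)) :
    (∀ (G : Type) [AddCommGroup G] [Finite G], (∃ k : ℕ, Nat.card G = p ^ k) →
      Tendsto (fun n : ℕ => (law μ (σ n)).real {X | Nonempty (Cok X ≃+ G)}) atTop
        (𝓝 (clMass p G))) ↔
    Tendsto (fun n : ℕ => (law μ (σ n)).real
      {X | ((Matrix.of X).map PadicInt.toZMod).det ≠ 0}) atTop (𝓝 (cp p)) := by
  constructor
  · intro h
    have h1 := h PUnit.{1} ⟨0, by simp⟩
    have h2 : clMass p PUnit.{1} = cp p := by
      unfold clMass
      have : Nat.card (PUnit.{1} ≃+ PUnit.{1}) = 1 := by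
        rw [Nat.card_eq_one_iff_unique]
        exact ⟨⟨fun a b => by ext⟩, ⟨AddEquiv.refl _⟩⟩
      rw [this]
      simp
    rw [h2] at h1
    refine h1.congr fun n => ?_
    congr 1
    ext X
    change Nonempty (Cok X ≃+ PUnit.{1}) ↔ ((Matrix.of X).map PadicInt.toZMod).det ≠ 0
    rw [cok_trivial_iff, det_iff]
  · intro h G _ _ hG
    obtain ⟨k, hk⟩ := hG
    have hG : ∀ g : G, p ^ k • g = 0 := by
      intro g
      rw [← hk]
      exact card_nsmul_eq_zero'
    set A : ℝ := 1 / (Nat.card (G ≃+ G) : ℝ) with hA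
    set s : ℝ := (Nat.card (AddSubgroup G) : ℝ) with hs
    have hpip := tendsto_pip p
    have hpip' : Tendsto (fun J : ℕ => pip p (J + 1)) atTop (𝓝 (cp p)) :=
      hpip.comp (tendsto_add_atTop_nat 1)
    have hcp := cp_pos p
    -- the limiting error
    have hlim : Tendsto (fun J : ℕ => (1 - cp p / pip p (J + 1)) + s * (1 / 2) ^ (J + 1)
        + |A * pip p (J + 1) - A * cp p|) atTop (𝓝 0) := by
      have t1 : Tendsto (fun J : ℕ => 1 - cp p / pip p (J + 1)) atTop (𝓝 0) := by
        have : Tendsto (fun J : ℕ => 1 - cp p / pip p (J + 1)) atTop (𝓝 (1 - cp p / cp p)) :=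
          tendsto_const_nhds.sub (tendsto_const_nhds.div hpip' hcp.ne')
        rwa [div_self hcp.ne', sub_self] at this
      have t2 : Tendsto (fun J : ℕ => s * (1 / 2 : ℝ) ^ (J + 1)) atTop (𝓝 0) := by
        have h1 : Tendsto (fun J : ℕ => (1 / 2 : ℝ) ^ (J + 1)) atTop (𝓝 0) :=
          (tendsto_pow_atTop_nhds_zero_of_lt_one (by norm_num) (by norm_num)).comp
            (tendsto_add_atTop_nat 1)
        have := h1.const_mul s
        rwa [mul_zero] at this
      have t3 : Tendsto (fun J : ℕ => |A * pip p (J + 1) - A * cp p|) atTop (𝓝 0) := by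
        have h1 : Tendsto (fun J : ℕ => A * pip p (J + 1) - A * cp p) atTop
            (𝓝 (A * cp p - A * cp p)) := (hpip'.const_mul A).sub tendsto_const_nhds
        rw [sub_self] at h1
        have := h1.abs
        rwa [abs_zero] at this
      have := (t1.add t2).add t3
      simpa using this
    rw [Metric.tendsto_atTop]
    intro ε hε
    have hev := (tendsto_order.1 hlim).2 (ε / 2) (by positivity)
    obtain ⟨J, hJ⟩ := hev.exists
    -- the error for fixed `J`
    have hB : Tendsto (fun n : ℕ => 1 - (law μ (σ n)).real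
          {X | ((Matrix.of X).map PadicInt.toZMod).det ≠ 0} / pip p (J + 1)
        + (J + 1) * ((pip p n - (law μ (σ n)).real
          {X | ((Matrix.of X).map PadicInt.toZMod).det ≠ 0}) /
          (((p : ℝ) - 1) * ((p : ℝ) ^ (J + 1))⁻¹ * pip p J))) atTop
        (𝓝 (1 - cp p / pip p (J + 1))) := by
      have h1 := (tendsto_const_nhds (x := (1 : ℝ))).sub (h.div_const (pip p (J + 1)))
      have h2 := ((hpip.sub h).div_const
        (((p : ℝ) - 1) * ((p : ℝ) ^ (J + 1))⁻¹ * pip p J)).const_mul ((J : ℝ) + 1)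
      have h3 := h1.add h2
      rw [sub_self, zero_div, mul_zero, add_zero] at h3
      exact h3
    have hev2 := (tendsto_order.1 hB).2 (1 - cp p / pip p (J + 1) + ε / 2) (by linarith)
    obtain ⟨n₀, hn₀⟩ := eventually_atTop.1 hev2
    refine ⟨max n₀ (J + 1), fun n hn => ?_⟩
    have hn1 : n₀ ≤ n := le_trans (le_max_left _ _) hn
    have hn2 : J + 1 ≤ n := le_trans (le_max_right _ _) hn
    have h1 := hn₀ n hn1
    set S : Finset (Fin n) := univ.filter (fun i : Fin n => i.val < n - (J + 1)) with hS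
    have hcardS : #S = n - (J + 1) := by
      rw [hS, Fin.card_filter_val_lt]
      omega
    have hcard : Fintype.card (Fin n) - #S = J + 1 := by
      rw [Fintype.card_fin, hcardS]
      omega
    have hcard' : Fintype.card {i // ¬ i ∈ S} = J + 1 := by
      rw [Fintype.card_subtype_compl (fun i => i ∈ S), ← hcard]
      congr 1
      simp
    have hne : NeZero (p ^ (k + 1)) := ⟨pow_ne_zero _ (Fact.out : p.Prime).ne_zero⟩
    have h2 := main_bound (loc (p := p) (e := k)) (fun c => Vs (σ n c)) S G hcard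
    rw [← prob_det μ k (σ n), ← prob_cok μ hG (σ n), Fintype.card_fin] at h2
    have h3 := muU_bound (e := k) (κ := {i // ¬ i ∈ S}) hG
    rw [hcard', ← hA, ← hs] at h3
    rw [Real.dist_eq]
    unfold clMass
    rw [← hA]
    have h3' : |muU (ZMod (p ^ (k + 1))) {i // ¬ i ∈ S} G - A * pip p (J + 1)|
        ≤ s * (1 / 2) ^ (J + 1) := by
      refine le_trans (le_of_eq ?_) h3
      congr!
    calc |(law μ (σ n)).real {X | Nonempty (Cok X ≃+ G)} - A * cp p|
        ≤ |(law μ (σ n)).real {X | Nonempty (Cok X ≃+ G)}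
            - muU (ZMod (p ^ (k + 1))) {i // ¬ i ∈ S} G|
          + |muU (ZMod (p ^ (k + 1))) {i // ¬ i ∈ S} G - A * pip p (J + 1)|
          + |A * pip p (J + 1) - A * cp p| := by
          refine (abs_sub_le _ (A * pip p (J + 1)) _).trans ?_
          have := abs_sub_le ((law μ (σ n)).real {X | Nonempty (Cok X ≃+ G)})
            (muU (ZMod (p ^ (k + 1))) {i // ¬ i ∈ S} G) (A * pip p (J + 1))
          linarith
      _ < ε := by linarith

end Pool.Agent.Results.MP_78de02_pr.RankZero
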